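import Pool.Agent.Q264.KS.Stm

/-!
# Job MIN of the project KS (helper264)
-/

namespace Pool.Agent.Q224.KS

open Module Pool.Agent.Q264.KS

universe u

theorem t_MIN : S_MIN.{u} := by
  intro X _ _ _ _ R
  haveI : ProperSpace X := FiniteDimensional.proper ℝ X
  have hc : Continuous fun x : X => ‖R x‖ := (LinearMap.continuous_of_finiteDimensional R).norm
  have hne : (Metric.sphere (0 : X) 1).Nonempty := NormedSpace.sphere_nonempty.mpr zero_le_one
  obtain ⟨x, hx, hmin⟩ := (isCompact_sphere (0 : X) 1).exists_isMinOn hne hc.continuousOn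
  have hx1 : ‖x‖ = 1 := by simpa using hx
  have key : ∀ z : X, ‖R x‖ * ‖z‖ ≤ ‖R z‖ := by
    intro z
    by_cases hz : z = 0
    · subst hz
      simp
    have hz0 : 0 < ‖z‖ := norm_pos_iff.mpr hz
    have h1 : ‖z‖⁻¹ • z ∈ Metric.sphere (0 : X) 1 := by
      rw [mem_sphere_zero_iff_norm, norm_smul, norm_inv, norm_norm, inv_mul_cancel₀ hz0.ne']
    have h2 : ‖R x‖ ≤ ‖R (‖z‖⁻¹ • z)‖ := hmin h1
    rw [map_smul, norm_smul, norm_inv, norm_norm] at h2
    calc ‖R x‖ * ‖z‖ ≤ (‖z‖⁻¹ * ‖R z‖) * ‖z‖ := mul_le_mul_of_nonneg_right h2 hz0.le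
      _ = ‖R z‖ := by
          field_simp
  refine ⟨x, hx1, key, ?_⟩
  intro y hy l
  have h1 := key (x + l • y)
  have h2 := hy l
  rw [hx1] at h2
  rw [map_add, map_smul] at h1
  calc ‖R x‖ = ‖R x‖ * 1 := (mul_one _).symm
    _ ≤ ‖R x‖ * ‖x + l • y‖ := mul_le_mul_of_nonneg_left h2 (norm_nonneg _)
    _ ≤ _ := h1

end Pool.Agent.Q224.KS
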