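import Pool.Agent.Q264.KS.Stm

/-!
# Job TWO of the project KS (helper264)
-/

namespace Pool.Agent.Q224.KS

open Module Pool.Agent.Q264.KS

universe u

theorem t_TWO : S_TWO.{u} := by
  intro hB hM X _ _ _ h2 hP x₁ hx₁ hd
  haveI : Nontrivial X := by
    apply Module.nontrivial_of_finrank_pos (R := ℝ)
    omega
  set D : X →L[ℝ] ℝ := fderiv ℝ (fun z : X => ‖z‖) x₁ with hD
  have hD1 : D x₁ = 1 := by
    rw [hD, hd.fderiv_norm_self, hx₁]
  let T : X →ₗ[ℝ] X := LinearMap.id - (2 : ℝ) • (D.toLinearMap.smulRight x₁)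
  have hT : ∀ z, T z = z - (2 * D z) • x₁ := by
    intro z
    simp [T, smul_smul]
  have hDT : ∀ z, D (T z) = - D z := by
    intro z
    rw [hT, map_sub, map_smul, hD1, smul_eq_mul]
    ring
  have hTT : ∀ z, T (T z) = z := by
    intro z
    rw [hT (T z), hDT, hT z]
    module
  refine ⟨D.toLinearMap, hD1, ?_⟩
  by_contra hcon
  have hex : ∃ z, ‖T z‖ < ‖z‖ := by
    have h3 : ∃ z, ‖T z‖ ≠ ‖z‖ := by
      by_contra hno
      push Not at hno
      apply hcon
      intro z
      have := hno z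
      rw [hT] at this
      exact this
    obtain ⟨z, hz⟩ := h3
    rcases lt_or_gt_of_ne hz with h | h
    · exact ⟨z, h⟩
    · exact ⟨T z, by rw [hTT]; exact h⟩
  obtain ⟨z, hz⟩ := hex
  obtain ⟨x, hx, hmin, hpres⟩ := hM X T
  have hz0 : 0 < ‖z‖ := (norm_nonneg _).trans_lt hz
  have hTx : ‖T x‖ < 1 := by
    have h3 : ‖T x‖ * ‖z‖ < 1 * ‖z‖ := by
      rw [one_mul]
      exact (hmin z).trans_lt hz
    exact lt_of_mul_lt_mul_right h3 hz0.le
  have hTx₁ : T x₁ = -x₁ := by
    rw [hT, hD1]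
    module
  have hpres₁ : Pres T x₁ := by
    intro y hy
    have h3 : D y = 0 := (hB X x₁ hd y).mp hy
    have h4 : T y = y := by
      rw [hT, h3]
      simp
    rw [hTx₁, h4]
    intro l
    have h5 := hy (-l)
    rw [norm_neg]
    refine h5.trans (le_of_eq ?_)
    rw [← norm_neg]
    congr 1
    module
  have ha : D x ≠ 0 := by
    intro h3
    have h4 : T x = x := by
      rw [hT, h3]
      simp
    rw [h4, hx] at hTx
    exact lt_irrefl _ hTx
  have hx₁0 : x₁ ≠ 0 := by
    intro h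
    rw [h, norm_zero] at hx₁
    exact zero_ne_one hx₁
  have hli : LinearIndependent ℝ ![x₁, x] := by
    rw [LinearIndependent.pair_iff' hx₁0]
    intro c hc
    have h4 : T x = -x := by
      rw [← hc, map_smul, hTx₁, smul_neg]
    rw [h4, norm_neg, hx] at hTx
    exact lt_irrefl _ hTx
  have hbas : IsBasis ({x₁, x} : Set X) := by
    refine ⟨fun i => ![x₁, x] (Fin.cast h2 i), ?_, ?_⟩
    · exact hli.comp (Fin.cast h2) (Fin.cast_injective h2)
    · have h3 : Set.range (fun i => ![x₁, x] (Fin.cast h2 i)) = Set.range ![x₁, x] := by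
        ext w
        constructor
        · rintro ⟨i, rfl⟩
          exact ⟨_, rfl⟩
        · rintro ⟨i, rfl⟩
          exact ⟨Fin.cast h2.symm i, by simp⟩
      rw [h3]
      simp [Set.pair_comm]
  have hone : ∀ w ∈ ({x₁, x} : Set X), ‖w‖ = 1 := by
    intro w hw
    rcases hw with rfl | hw
    · exact hx₁
    · rw [Set.mem_singleton_iff] at hw
      rw [hw]
      exact hx
  have hself : ∀ w ∈ ({x₁, x} : Set X), ¬ BJ w w := by
    intro w hw hbj
    have h3 := hbj (-1)
    rw [hone w hw] at h3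
    have h4 : w + (-1 : ℝ) • w = 0 := by module
    rw [h4, norm_zero] at h3
    linarith
  have hconn : Conn ({x₁, x} : Set X) := by
    intro A₁ A₂ hA hn1 hn2 hall
    have m1 : x₁ ∈ A₁ ∪ A₂ := by
      rw [← hA]
      simp
    have m2 : x ∈ A₁ ∪ A₂ := by
      rw [← hA]
      simp
    have hsub1 : ∀ w ∈ A₁, w ∈ ({x₁, x} : Set X) := by
      intro w hw
      rw [hA]
      exact Or.inl hw
    have hsub2 : ∀ w ∈ A₂, w ∈ ({x₁, x} : Set X) := by
      intro w hw
      rw [hA]
      exact Or.inr hw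
    rcases m1 with m1 | m1 <;> rcases m2 with m2 | m2
    · obtain ⟨q, hq⟩ := hn2
      have hq' := hsub2 q hq
      refine hself q hq' (hall q ?_ q hq)
      rcases hq' with rfl | hq'
      · exact m1
      · rw [Set.mem_singleton_iff] at hq'
        rw [hq']
        exact m2
    · have h3 := hall x₁ m1 x m2
      exact ha ((hB X x₁ hd x).mp h3)
    · have h3 := hall x m2 x₁ m1 (-(2 * D x))
      have h4 : x + (-(2 * D x)) • x₁ = T x := by
        rw [hT]
        module
      rw [h4, hx] at h3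
      linarith
    · obtain ⟨q, hq⟩ := hn1
      have hq' := hsub1 q hq
      refine hself q hq' (hall q hq q ?_)
      rcases hq' with rfl | hq'
      · exact m1
      · rw [Set.mem_singleton_iff] at hq'
        rw [hq']
        exact m2
  have hK : IsK ({x₁, x} : Set X) := ((hP _ ⟨x₁, by simp⟩ hone).mpr ⟨hbas, hconn⟩).1
  obtain ⟨c, U, hU, hTU⟩ := hK T (by
    intro w hw
    rcases hw with rfl | hw
    · exact hpres₁
    · rw [Set.mem_singleton_iff] at hw
      rw [hw]
      exact hpres)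
  have h5 : ‖T x₁‖ = |c| := by
    rw [hTU, LinearMap.smul_apply, norm_smul, hU, hx₁, Real.norm_eq_abs, mul_one]
  have h6 : ‖T x‖ = |c| := by
    rw [hTU, LinearMap.smul_apply, norm_smul, hU, hx, Real.norm_eq_abs, mul_one]
  rw [hTx₁, norm_neg, hx₁] at h5
  rw [h6, ← h5] at hTx
  exact lt_irrefl _ hTx

end Pool.Agent.Q224.KS
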